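import Pool.Agent.X14.Bala

set_option autoImplicit false

namespace Pool.Agent.Results.MP_a0b46e_nt.AllExponents

open Finset Pool.Agent.H434R2 Pool.Agent.H434R2.PO Pool.Agent.X14 Pool.Agent.X14.Bala

/-- `S_m(n) = ∑_{k=1}^n C(n,k)^2 C(n+k,k)^2 / k^(2m+1)`, a rational number. -/
def S (m n : ℕ) : ℚ :=
  ∑ k ∈ Icc 1 n, ((n.choose k : ℚ) ^ 2 * ((n + k).choose k : ℚ) ^ 2) / (k : ℚ) ^ (2 * m + 1)

/-- `u_m(n)` is the numerator of `S_m(n)` in lowest terms for `n ≥ 1`, and `u_m(0) = 0`. -/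
def u (m n : ℕ) : ℤ := if n = 0 then 0 else (S m n).num

lemma S_eq (m p : ℕ) (hp : 1 ≤ p) :
    S m (p - 1) = ∑ j ∈ range (p - 1), xx p j ^ 2 * (1 - xx p j) ^ 2 * WW p j * (1 / ((j : ℚ) + 1) ^ (2 * m + 1)) := by
  unfold S
  have e0 : ∑ k ∈ Icc 1 (p - 1), (((p - 1).choose k : ℚ) ^ 2 * ((p - 1 + k).choose k : ℚ) ^ 2) / (k : ℚ) ^ (2 * m + 1) =
      ∑ j ∈ range (p - 1), (((p - 1).choose (j + 1) : ℚ) ^ 2 * ((p - 1 + (j + 1)).choose (j + 1) : ℚ) ^ 2) /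
        ((j + 1 : ℕ) : ℚ) ^ (2 * m + 1) := by
    rw [Finset.range_eq_Ico, Finset.sum_Ico_add' (fun k : ℕ => (((p - 1).choose k : ℚ) ^ 2 *
      ((p - 1 + k).choose k : ℚ) ^ 2) / (k : ℚ) ^ (2 * m + 1)) 0 (p - 1) 1]
    apply sum_congr _ (fun _ _ => rfl)
    ext k
    simp only [mem_Icc, mem_Ico]
    omega
  rw [e0]
  apply sum_congr rfl
  intro j _
  have hj0 : ((j : ℚ) + 1) ≠ 0 := by positivity
  have a2 : ((p - 1).choose (j + 1) : ℚ) = -((p - 1).choose j : ℚ) * (1 - xx p j) := by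
    rw [choose_pred p _ hp, choose_pred p _ hp, prod_range_succ, pow_succ]; ring
  have a3 : ((p - 1 + (j + 1)).choose (j + 1) : ℚ) = xx p j * ((p + j).choose j : ℚ) := by
    have e : p - 1 + (j + 1) = p + j := by omega
    rw [e]
    have h := Nat.choose_succ_right_eq (p + j) j
    rw [Nat.add_sub_cancel] at h
    have h5 : ((p + j).choose (j + 1) : ℚ) * ((j + 1 : ℕ) : ℚ) = ((p + j).choose j : ℚ) * (p : ℚ) := by
      exact_mod_cast h
    push_cast at h5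
    unfold xx
    field_simp
    linarith
  rw [a2, a3, WW_eq p j hp]
  push_cast
  ring

/-- the key congruence -/
lemma main (m p : ℕ) [hp : Fact p.Prime] (h2 : p ≠ 2) (h : ¬ p - 1 ∣ 2 * m + 4) : PO p 4 (S m (p - 1)) := by
  have hp1 : 1 ≤ p := hp.out.one_lt.le
  rw [S_eq m p hp1]
  have hx : ∀ j ∈ range (p - 1), PO p 1 (xx p j) := by
    intro j hj
    unfold xx
    rw [div_eq_mul_inv]
    exact p_PO.mul0' (inv_succ (mem_range.1 hj))
  have hW : ∀ j ∈ range (p - 1), PO p 2 (WW p j - 1) := by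
    intro j hj
    unfold WW
    apply prod_one
    intro i hi
    have hi' : i ∈ range (p - 1) := by
      rw [mem_range] at *; omega
    have h1 := (hx i hi').pow 2
    have e : (1 - xx p i ^ 2) ^ 2 - 1 = xx p i ^ 2 * (xx p i ^ 2 - 2) := by ring
    rw [e]
    refine h1.mul0' ((h1.mono (by omega)).sub ?_)
    exact_mod_cast of_nat (p := p) 2
  have h1 : PO p 4 (∑ j ∈ range (p - 1), xx p j ^ 2 * (1 - xx p j) ^ 2 * WW p j * (1 / ((j : ℚ) + 1) ^ (2 * m + 1)) -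
      ∑ j ∈ range (p - 1), xx p j ^ 2 * (1 - 2 * xx p j) * (1 / ((j : ℚ) + 1) ^ (2 * m + 1))) := by
    apply PO.sum_sub
    intro j hj
    have e : xx p j ^ 2 * (1 - xx p j) ^ 2 * WW p j * (1 / ((j : ℚ) + 1) ^ (2 * m + 1)) -
        xx p j ^ 2 * (1 - 2 * xx p j) * (1 / ((j : ℚ) + 1) ^ (2 * m + 1)) =
        (xx p j ^ 2 * ((1 - xx p j) ^ 2 * (WW p j - 1) + xx p j ^ 2)) * (1 / ((j : ℚ) + 1) ^ (2 * m + 1)) := by ring
    rw [e]
    refine PO.mul0' ?_ (inv_succ_pow (mem_range.1 hj) _)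
    have h3 := (hx j hj).pow 2
    refine h3.mul (k := 2) (PO.add (PO.mul0 ?_ (hW j hj)) h3)
    exact PO.pow0 (PO.one.sub ((hx j hj).mono (by omega))) 2
  have h2' : PO p 4 (∑ j ∈ range (p - 1), xx p j ^ 2 * (1 - 2 * xx p j) * (1 / ((j : ℚ) + 1) ^ (2 * m + 1))) := by
    have e : ∑ j ∈ range (p - 1), xx p j ^ 2 * (1 - 2 * xx p j) * (1 / ((j : ℚ) + 1) ^ (2 * m + 1)) =
        (p : ℚ) ^ 2 * ((1 / 2) * ((2 * ∑ j ∈ range (p - 1), 1 / ((j : ℚ) + 1) ^ (2 * m + 3) +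
          ((2 * m + 3 : ℕ) : ℚ) * p * ∑ j ∈ range (p - 1), 1 / ((j : ℚ) + 1) ^ (2 * m + 3 + 1)) -
          ((2 * m + 7 : ℕ) : ℚ) * (p * ∑ j ∈ range (p - 1), 1 / ((j : ℚ) + 1) ^ (2 * m + 4)))) := by
      have e1 : (p : ℚ) ^ 2 * ((1 / 2) * ((2 * ∑ j ∈ range (p - 1), 1 / ((j : ℚ) + 1) ^ (2 * m + 3) +
          ((2 * m + 3 : ℕ) : ℚ) * p * ∑ j ∈ range (p - 1), 1 / ((j : ℚ) + 1) ^ (2 * m + 3 + 1)) -
          ((2 * m + 7 : ℕ) : ℚ) * (p * ∑ j ∈ range (p - 1), 1 / ((j : ℚ) + 1) ^ (2 * m + 4)))) =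
          (p : ℚ) ^ 2 * (∑ j ∈ range (p - 1), 1 / ((j : ℚ) + 1) ^ (2 * m + 3)) -
          2 * (p : ℚ) ^ 3 * (∑ j ∈ range (p - 1), 1 / ((j : ℚ) + 1) ^ (2 * m + 4)) := by
        push_cast; ring
      rw [e1, mul_sum, mul_sum, ← sum_sub_distrib]
      apply sum_congr rfl
      intro j _
      unfold xx
      have hj0 : ((j : ℚ) + 1) ≠ 0 := by positivity
      field_simp
      ring
    rw [e]
    refine (ppow (p := p) 2).mul (k := 2) (PO.mul0 (half h2) (PO.sub ?_ ?_))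
    · exact inv_pow_sum_odd (p := p) (m := 2 * m + 3) ⟨m + 1, by ring⟩
    · exact PO.mul0 (of_nat _) (p_PO.mul (k := 1) (inv_pow_sum h))
  have := h1.add h2'
  rwa [sub_add_cancel] at this

/-- For every `m ≥ 0` there is a finite set `E` of primes such that `p^4` divides the numerator
`u_m(p-1)` for every prime `p` outside `E`; every member of `E` is `2` or satisfies
`p - 1 ∣ 2m + 4`. -/
theorem result : ∀ m : ℕ, ∃ E : Finset ℕ, (∀ p ∈ E, p.Prime ∧ (p = 2 ∨ p - 1 ∣ 2 * m + 4)) ∧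
    ∀ p : ℕ, p.Prime → p ∉ E → (p : ℤ) ^ 4 ∣ u m (p - 1) := by
  intro m
  refine ⟨(range (2 * m + 6)).filter (fun p => p.Prime ∧ (p = 2 ∨ p - 1 ∣ 2 * m + 4)),
    fun p hp => (mem_filter.1 hp).2, ?_⟩
  intro p hpp hE
  have hp : Fact p.Prime := ⟨hpp⟩
  have hp2 := hpp.two_le
  have h2 : p ≠ 2 := by
    rintro rfl
    exact hE (mem_filter.2 ⟨mem_range.2 (by omega), hpp, Or.inl rfl⟩)
  have hnd : ¬ p - 1 ∣ 2 * m + 4 := by
    intro hd
    have := Nat.le_of_dvd (by omega) hd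
    exact hE (mem_filter.2 ⟨mem_range.2 (by omega), hpp, Or.inr hd⟩)
  have h := main m p h2 hnd
  unfold u
  rw [if_neg (by omega)]
  apply dvd_of_PO
  -- numerator = S * denominator
  have e : (((S m (p - 1)).num : ℤ) : ℚ) = S m (p - 1) * ((S m (p - 1)).den : ℚ) :=
    (Rat.mul_den_eq_num _).symm
  rw [e]
  exact h.mul0' (of_nat _)

end Pool.Agent.Results.MP_a0b46e_nt.AllExponents
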